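import Pool.Agent.Q10.KZD
import Pool.Agent.Y557.NF.Mason

/-!
# The weak abc inequality for almost all values of a split rational function at rational arguments

`K` is a number field and `f` a rational function of degree `D` over `K` which takes the values
`0`, `1` and infinity at `q` points of the projective line, all of them `K`-rational, but not
necessarily rational. We order the values `x = f(t)`, `t ∈ ℚ`, by their height and show that almost
all of them satisfy the inequality `h(x) ≤ κ (cond(x) + cond(1/x) + cond(x - 1)) + c` if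
`κ > D / (2 S₁)`, whatever the constant `c`.
-/

set_option autoImplicit false

namespace Pool.Agent.Results.MP_f5a5f7_nt.AlmostAllOnCurves

open NumberField IsDedekindDomain Polynomial

variable {K : Type} [Field K] [NumberField K]

/-- the absolute logarithmic Weil height `h(x)`, as in the problem -/
noncomputable def height (x : K) : ℝ :=
  (1 / (Module.finrank ℚ K : ℝ)) *
    ((∑ w : InfinitePlace K, (w.mult : ℝ) * Real.log (max 1 (w x))) +
      ∑ᶠ v : HeightOneSpectrum (𝓞 K), Real.log (max 1 (FinitePlace.mk v x)))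

/-- the conductor `cond(x)`, as in the problem: the sum of `log N(v) / d` over the primes `v` at
which `x` has a positive valuation -/
noncomputable def cond (x : K) : ℝ :=
  (1 / (Module.finrank ℚ K : ℝ)) *
    (∑ᶠ v : HeightOneSpectrum (𝓞 K),
      (if FinitePlace.mk v x < 1 then Real.log (Ideal.absNorm v.asIdeal : ℝ) else 0))

/-- the sum `cond(x) + cond(1/x) + cond(x - 1)` of the problem -/
noncomputable def conductors (x : K) : ℝ := cond x + cond x⁻¹ + cond (x - 1)

open Classical in
/-- the points of the projective line (`none` is infinity) at which the function `f = P 0 / P 2`,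
with `1 - f = P 1 / P 2`, has one of the values `0`, `1` and infinity -/
noncomputable def zeros {K : Type} [Field K] (P : Fin 3 → K[X]) : Finset (Option K) :=
  ((∏ i, P i).roots.toFinset).image some ∪
    if ∃ i j, (P i).natDegree < (P j).natDegree then {none} else ∅

/-- the degree over `ℚ` of a point of the projective line -/
noncomputable def degree (a : Option K) : ℕ :=
  a.elim 1 fun r => (minpoly ℚ r).natDegree

/-- the number of the rational points among the zeros -/
noncomputable def rationalZeros (P : Fin 3 → K[X]) : ℕ :=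
  ((zeros P).filter fun a => degree a = 1).card

/-- the sum of `1 / degree` over the zeros of degree at least two, plus half the number of the
rational zeros if there are at least two of them -/
noncomputable def S₁ (P : Fin 3 → K[X]) : ℝ :=
  ∑ a ∈ (zeros P).filter (fun a => 2 ≤ degree a), 1 / (degree a : ℝ) +
    if 2 ≤ rationalZeros P then (rationalZeros P : ℝ) / 2 else 0

/-- the values `x = f(t)`, `x ≠ 0, 1`, of `f = P 0 / P 2` at rational `t` of height at most `T` -/
def AllUpTo (P : Fin 3 → K[X]) (T : ℝ) : Set K :=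
  {x | (x ≠ 0 ∧ x ≠ 1 ∧
    ∃ t : ℚ, (P 2).eval (t : K) ≠ 0 ∧ x = (P 0).eval (t : K) / (P 2).eval (t : K)) ∧ height x ≤ T}

/-- those which violate the inequality `h(x) ≤ κ (cond(x) + cond(1/x) + cond(x - 1)) + c` -/
def Violations (P : Fin 3 → K[X]) (κ c T : ℝ) : Set K :=
  {x | x ∈ AllUpTo P T ∧ κ * conductors x + c < height x}

section
variable {P : Fin 3 → K[X]}

open Pool.Agent.Q10.KY Pool.Agent.Q10.KZ

omit [NumberField K] in
theorem zeros_eq : zeros P = pts P := by
  classical
  unfold zeros pts rts Unequal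
  congr!

theorem degree_eq : (degree : Option K → ℕ) = dgr := rfl

theorem rationalZeros_eq : rationalZeros P = (rat P).card := by
  classical
  unfold rationalZeros rat
  rw [zeros_eq, degree_eq]

theorem S₁_eq : S₁ P = S1 P := by
  classical
  unfold S₁ S1
  rw [rationalZeros_eq, zeros_eq, degree_eq]

theorem allUpTo_eq (T : ℝ) : AllUpTo P T = AllV P T := rfl

theorem violations_eq (κ c T : ℝ) : Violations P κ c T = VioV P κ c T := rfl

theorem mason {P : Fin 3 → K[X]} (hP : ∀ i, P i ≠ 0) (hsum : P 0 + P 1 = P 2)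
    (hcop : IsCoprime (P 0) (P 1)) (hs : ∀ i, (P i).Splits)
    {D : ℕ} (hD : 1 ≤ D) (hdeg : ∀ i, (P i).natDegree ≤ D) (hdeg' : ∃ i, (P i).natDegree = D) :
    D + 2 ≤ (zeros P).card := by
  classical
  obtain ⟨Q, hQ⟩ : ∃ Q : Fin 3 → K[X], Q = ![P 0, P 1, -P 2] := ⟨_, rfl⟩
  have q0 : Q 0 = P 0 := by rw [hQ]; rfl
  have q1 : Q 1 = P 1 := by rw [hQ]; rfl
  have q2 : Q 2 = -P 2 := by rw [hQ]; rfl
  have hQd : ∀ i, (Q i).natDegree = (P i).natDegree := by
    intro i
    fin_cases i
    · exact congrArg natDegree q0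
    · exact congrArg natDegree q1
    · exact (congrArg natDegree q2).trans (natDegree_neg _)
  have h := Pool.Agent.Y557.NF.mason_q (P := Q)
    (fun i => by
      fin_cases i
      · exact fun h => hP 0 (q0 ▸ h)
      · exact fun h => hP 1 (q1 ▸ h)
      · intro h
        have h' : Q 2 = 0 := h
        rw [q2, neg_eq_zero] at h'
        exact hP 2 h')
    (fun i => by
      fin_cases i
      · exact q0 ▸ hs 0
      · exact q1 ▸ hs 1
      · show (Q 2).Splits
        rw [q2]
        exact (hs 2).neg)
    (by rw [q0, q1, q2, hsum, add_neg_cancel]) (by rw [q0, q1]; exact hcop)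
    (fun i => by rw [hQd]; exact hdeg i)
    (by obtain ⟨i, hi⟩ := hdeg'; exact ⟨i, by rw [hQd]; exact hi⟩) hD
  refine h.trans (le_of_eq ?_)
  have hprod : (∏ i, Q i).roots = (∏ i, P i).roots := by
    rw [Fin.prod_univ_three, Fin.prod_univ_three, q0, q1, q2, mul_neg, roots_neg]
  have hU : Pool.Agent.Y557.NF.Unequal Q ↔ ∃ i j, (P i).natDegree < (P j).natDegree := by
    unfold Pool.Agent.Y557.NF.Unequal
    simp only [hQd]
  unfold zeros Pool.Agent.Y557.NF.nz
  rw [Finset.card_union_of_disjoint, Finset.card_image_of_injective _ (Option.some_injective _)]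
  · refine congrArg₂ (· + ·) ?_ ?_
    · unfold Pool.Agent.Y557.NF.rts
      rw [hprod]
    · by_cases h5 : ∃ i j, (P i).natDegree < (P j).natDegree
      · rw [if_pos h5, if_pos (hU.2 h5), Finset.card_singleton]
      · rw [if_neg h5, if_neg (fun h6 => h5 (hU.1 h6)), Finset.card_empty]
  · rw [Finset.disjoint_left]
    intro a ha hb
    obtain ⟨r, -, rfl⟩ := Finset.mem_image.1 ha
    split_ifs at hb
    · simp at hb
    · simp at hb

end

open Pool.Agent.Q10.KY Pool.Agent.Q10.KZ in
/-- **Theorem.** Let `K` be a number field and `f = P 0 / P 2` a rational function of degree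
`D ≥ 1` over `K` in lowest terms, `1 - f = P 1 / P 2`, which has the values `0`, `1` and infinity
only at points of the projective line over `K`, `q` points in all. Write `c(x)` for
`cond(x) + cond(1/x) + cond(x - 1)`. Consider the numbers `x = f(t)`, `x ≠ 0, 1`, `t` rational.

(0) If the `q` points have degree at most two over `ℚ` (for example if `[K : ℚ] ≤ 2`) and not
exactly one of them is rational, then `2 S₁ = q ≥ D + 2`.

(1) For all `κ, δ > 0` and all `c` at most `C exp ((1 / (S₁ κ) + δ) T)` of the `x` with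
`h(x) ≤ T` violate `h(x) ≤ κ c(x) + c`.

(2) For every `δ > 0` and all large `T` at least `exp ((2 / D - δ) T)` of them satisfy
`h(x) ≤ T`.

(3) If `κ > D / (2 S₁)`, then for every `c` the number in (1) is at most `exp (-ν T)` times the
number in (2), for some `ν > 0` and all large `T`. -/
theorem result (K : Type) [Field K] [NumberField K] (P : Fin 3 → K[X])
    (hP : ∀ i, P i ≠ 0) (hsum : P 0 + P 1 = P 2) (hcop : IsCoprime (P 0) (P 1))
    (hs : ∀ i, (P i).Splits)
    (D : ℕ) (hD : 1 ≤ D) (hdeg : ∀ i, (P i).natDegree ≤ D) (hdeg' : ∃ i, (P i).natDegree = D)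
    (q : ℕ) (hq : (zeros P).card = q) :
    ((∀ a ∈ zeros P, degree a ≤ 2) → rationalZeros P ≠ 1 → 2 * S₁ P = q ∧ D + 2 ≤ q) ∧
    (∀ κ c δ : ℝ, 0 < κ → 0 < δ → ∃ C : ℝ, ∀ T : ℝ, 0 ≤ T →
      ((Violations P κ c T).ncard : ℝ) ≤ C * Real.exp ((1 / (S₁ P * κ) + δ) * T)) ∧
    (∀ δ : ℝ, 0 < δ → ∃ T₀ : ℝ, ∀ T : ℝ, T₀ ≤ T →
      Real.exp ((2 / (D : ℝ) - δ) * T) ≤ ((AllUpTo P T).ncard : ℝ)) ∧
    (∀ κ c : ℝ, (D : ℝ) / (2 * S₁ P) < κ → ∃ ν : ℝ, 0 < ν ∧ ∃ T₀ : ℝ, ∀ T : ℝ, T₀ ≤ T →
      ((Violations P κ c T).ncard : ℝ) ≤ Real.exp (-ν * T) * ((AllUpTo P T).ncard : ℝ)) := by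
  classical
  have hm := mason hP hsum hcop hs hD hdeg hdeg'
  rw [hq] at hm
  obtain ⟨v1, v2, v3⟩ := values_viol hP hs hsum hcop hD hdeg hdeg'
  rw [zeros_eq] at hq
  simp only [allUpTo_eq, violations_eq, S₁_eq, zeros_eq, degree_eq, rationalZeros_eq]
  refine ⟨?_, ?_, v2, v3⟩
  · intro h2 h1
    refine ⟨?_, hm⟩
    rw [S1_two h2 h1, hq]
    ring
  · intro κ c δ hκ hδ
    obtain ⟨C, -, h⟩ := v1 κ c δ hκ hδ
    exact ⟨C, h⟩

end Pool.Agent.Results.MP_f5a5f7_nt.AlmostAllOnCurves
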