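import Pool.Agent.Q38.AE.Num

/-!
# The exceptions to the abc inequality of a number field in the order by the three conductors

`K` is a number field of degree `d`. The numbers `x ∈ K`, `x ≠ 0, 1`, are ordered by the quantity
`c(x) = cond(x) + cond(1/x) + cond(x - 1)` of the problem. We count those with `c(x) ≤ log X` which
violate `h(x) < κ c(x)`, for `κ > 1/3`, and satisfy `h(x) < L c(x)` (or `h(x) ≤ L log X`): there are
`X ^ (d (1 - κ) + o(1))` of them.
-/

set_option autoImplicit false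

namespace Pool.Agent.Results.MP_f5a5f7_nt.ExceptionsExactExponent

open NumberField IsDedekindDomain Filter Topology

variable {K : Type} [Field K] [NumberField K]

/-- the absolute logarithmic Weil height `h(x)`, as in the problem -/
noncomputable def height (x : K) : ℝ :=
  (1 / (Module.finrank ℚ K : ℝ)) *
    ((∑ w : InfinitePlace K, (w.mult : ℝ) * Real.log (max 1 (w x))) +
      ∑ᶠ v : HeightOneSpectrum (𝓞 K), Real.log (max 1 (FinitePlace.mk v x)))

/-- the conductor `cond(x)`, as in the problem: the sum of `log N(v) / d` over the primes `v` at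
which `x` has a positive valuation -/
noncomputable def cond (x : K) : ℝ :=
  (1 / (Module.finrank ℚ K : ℝ)) *
    (∑ᶠ v : HeightOneSpectrum (𝓞 K),
      (if FinitePlace.mk v x < 1 then Real.log (Ideal.absNorm v.asIdeal : ℝ) else 0))

/-- `cond(x) + cond(1/x) + cond(x - 1)` -/
noncomputable def c (x : K) : ℝ := cond x + cond x⁻¹ + cond (x - 1)

/-- the numbers `x ∈ K`, `x ≠ 0, 1`, with `c(x) ≤ log X` and `κ c(x) ≤ h(x) ≤ L log X` -/
def Exceptions (K : Type) [Field K] [NumberField K] (κ L X : ℝ) : Set K :=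
  {x | (x ≠ 0 ∧ x ≠ 1) ∧ Real.exp (c x) ≤ X ∧ κ * c x ≤ height x ∧ height x ≤ L * Real.log X}

/-- the numbers `x ∈ K`, `x ≠ 0, 1`, with `c(x) ≤ log X` and `κ c(x) ≤ h(x) < L c(x)` -/
def Between (K : Type) [Field K] [NumberField K] (κ L X : ℝ) : Set K :=
  {x | (x ≠ 0 ∧ x ≠ 1) ∧ Real.exp (c x) ≤ X ∧ κ * c x ≤ height x ∧ height x < L * c x}

open Pool.Agent.Q38.AE.Cov Pool.Agent.Q38.AE.Many Pool.Agent.Q38.AE.Num

theorem height_eq (x : K) :
    height x = Pool.Agent.Results.MP_4d5ce1_nt.ExceptionalSetExponents.height x := by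
  unfold height Pool.Agent.Results.MP_4d5ce1_nt.ExceptionalSetExponents.height
  rw [one_div, inv_mul_eq_div]
  congr 2
  · refine Finset.sum_congr rfl fun w _ => ?_
    rw [map_one, max_comm]
  · refine finsum_congr fun v => ?_
    rw [map_one, max_comm]

theorem c_eq {x : K} (h : x ≠ 0 ∧ x ≠ 1) :
    c x = Pool.Agent.Results.MP_4d5ce1_nt.ExceptionalSetExponents.counting ∅ (al3 K) x := by
  rw [counting_cd h.1 h.2]
  have e : ∀ y : K, cond y = cd y / (Module.finrank ℚ K : ℝ) := by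
    intro y
    unfold cond
    rw [one_div, inv_mul_eq_div]
    rfl
  unfold c
  rw [e, e, e]
  ring

theorem eqE (K : Type) [Field K] [NumberField K] (κ L X : ℝ) : Exceptions K κ L X =
    E (Off K 3 (al3 K)) Pool.Agent.Results.MP_4d5ce1_nt.ExceptionalSetExponents.height
      (Pool.Agent.Results.MP_4d5ce1_nt.ExceptionalSetExponents.counting ∅ (al3 K)) κ L X := by
  ext x
  constructor
  · rintro ⟨h1, h2, h3, h4⟩
    rw [c_eq h1] at h2 h3
    rw [height_eq] at h3 h4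
    exact ⟨(off_iff x).2 h1, h2, h3, h4⟩
  · rintro ⟨h1, h2, h3, h4⟩
    have h := (off_iff x).1 h1
    refine ⟨h, ?_, ?_, ?_⟩
    · rw [c_eq h]
      exact h2
    · rw [c_eq h, height_eq]
      exact h3
    · rw [height_eq]
      exact h4

theorem eqF (K : Type) [Field K] [NumberField K] (κ L X : ℝ) : Between K κ L X =
    F (Off K 3 (al3 K)) Pool.Agent.Results.MP_4d5ce1_nt.ExceptionalSetExponents.height
      (Pool.Agent.Results.MP_4d5ce1_nt.ExceptionalSetExponents.counting ∅ (al3 K)) κ L X := by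
  ext x
  constructor
  · rintro ⟨h1, h2, h3, h4⟩
    rw [c_eq h1] at h2 h3 h4
    rw [height_eq] at h3 h4
    exact ⟨(off_iff x).2 h1, h2, h3, h4⟩
  · rintro ⟨h1, h2, h3, h4⟩
    have h := (off_iff x).1 h1
    refine ⟨h, ?_, ?_, ?_⟩
    · rw [c_eq h]
      exact h2
    · rw [c_eq h, height_eq]
      exact h3
    · rw [c_eq h, height_eq]
      exact h4

/-- Let `K` be a number field of degree `d` and `1/3 < κ < L`. Suppose that `L ≤ 1/2`, or that
`L ≤ 1` and `κ ≤ 30/77`. Then for every `X ≥ 1` there are only finitely many `x ∈ K`, `x ≠ 0, 1`,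
with `c(x) ≤ log X` and `κ c(x) ≤ h(x) ≤ L log X`; their number is `X ^ (d (1 - κ) + o(1))` for
`X → ∞`, and so is the number of the `x` with `c(x) ≤ log X` and `κ c(x) ≤ h(x) < L c(x)`. -/
theorem result (K : Type) [Field K] [NumberField K] (κ L : ℝ) (hκ : 1 / 3 < κ) (hκL : κ < L)
    (hL : L ≤ 1 / 2 ∨ (L ≤ 1 ∧ κ ≤ 30 / 77)) :
    (∀ X : ℝ, 1 ≤ X → (Exceptions K κ L X).Finite ∧ Between K κ L X ⊆ Exceptions K κ L X) ∧
    Tendsto (fun X : ℝ => Real.log ((Exceptions K κ L X).ncard : ℝ) / Real.log X) atTop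
      (𝓝 ((Module.finrank ℚ K : ℝ) * (1 - κ))) ∧
    Tendsto (fun X : ℝ => Real.log ((Between K κ L X).ncard : ℝ) / Real.log X) atTop
      (𝓝 ((Module.finrank ℚ K : ℝ) * (1 - κ))) := by
  have hT : (∅ : Set (HeightOneSpectrum (RingOfIntegers K))).Finite := Set.finite_empty
  have hM' : 1 / ((3 : ℕ) : ℝ) < κ := by push_cast; exact hκ
  have hL' : L ≤ 7 / (7 * ((3 : ℕ) : ℝ) - 6) ∨ ((3 : ℕ) = 3 ∧ L ≤ 1 / 2) ∨
      (L ≤ 3 / ((3 : ℕ) : ℝ) ∧ (((3 : ℕ) : ℝ) - 2) * κ ≤ 1 - top 3) := by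
    rcases hL with h | ⟨h1, h2⟩
    · exact Or.inr (Or.inl ⟨rfl, h⟩)
    · refine Or.inr (Or.inr ⟨by norm_num; exact h1, ?_⟩)
      have e : top 3 = 47 / 77 := by
        unfold top
        norm_num
      rw [e]
      push_cast
      linarith
  have ee : (Module.finrank ℚ K : ℝ) * (1 - (((3 : ℕ) : ℝ) - 2) * κ) =
      (Module.finrank ℚ K : ℝ) * (1 - κ) := by
    push_cast
    ring
  have hup : ∀ ε : ℝ, 0 < ε → ∃ C : ℝ, 0 < C ∧ ∀ X : ℝ, 1 ≤ X →
      (Exceptions K κ L X).Finite ∧ ((Exceptions K κ L X).ncard : ℝ) ≤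
        C * X ^ ((Module.finrank ℚ K : ℝ) * (1 - κ) + ε) := by
    intro ε hε
    have h := upperQ K ∅ hT 3 le_rfl (al3 K) al3_ne al3_dist hM' hκL hL' hε
    rw [ee] at h
    simp only [eqE]
    exact h
  have hlo : ∀ ε : ℝ, 0 < ε → ∃ X₀ : ℝ, ∀ X : ℝ, X₀ ≤ X →
      X ^ ((Module.finrank ℚ K : ℝ) * (1 - κ) - ε) ≤ ((Between K κ L X).ncard : ℝ) := by
    intro ε hε
    have h := lowerQ K ∅ hT 3 le_rfl (al3 K) al3_ne al3_dist hM' hκL hL' hε
    rw [ee] at h
    simp only [eqF]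
    exact h
  have hfin : ∀ X : ℝ, 1 ≤ X → (Exceptions K κ L X).Finite ∧
      Between K κ L X ⊆ Exceptions K κ L X := by
    intro X hX
    obtain ⟨C, -, hC⟩ := hup 1 one_pos
    refine ⟨(hC X hX).1, ?_⟩
    rw [eqE, eqF]
    exact F_sub (by linarith) (by linarith)
  have hle : ∀ X : ℝ, 1 ≤ X → ((Between K κ L X).ncard : ℝ) ≤
      ((Exceptions K κ L X).ncard : ℝ) := by
    intro X hX
    obtain ⟨h1, h2⟩ := hfin X hX
    exact_mod_cast Set.ncard_le_ncard h2 h1
  refine ⟨hfin, tendsto_exponent (fun ε hε => ?_) (fun ε hε => ?_),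
    tendsto_exponent (fun ε hε => ?_) hlo⟩
  · obtain ⟨C, hC, h⟩ := hup ε hε
    exact ⟨C, hC, fun X hX => (h X hX).2⟩
  · obtain ⟨X₀, h⟩ := hlo ε hε
    exact ⟨max X₀ 1, fun X hX => (h X ((le_max_left _ _).trans hX)).trans
      (hle X ((le_max_right _ _).trans hX))⟩
  · obtain ⟨C, hC, h⟩ := hup ε hε
    exact ⟨C, hC, fun X hX => (hle X hX).trans (h X hX).2⟩

end Pool.Agent.Results.MP_f5a5f7_nt.ExceptionsExactExponent
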