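import Pool.Agent.Q229.RAG
import Pool.Agent.Results.MP_f5a5f7_nt.ViolationsOfWeakAbc
import Pool.Agent.Results.MP_f5a5f7_nt.FewExceptions

/-!
# The weak abc inequality for ALL good approximations of almost every complex (real) number by the elements of a number field

Let `K` be a number field of degree `d` with an embedding `φ : K → ℂ`. For `x ∈ K`, `x ≠ 0, 1`, put
`c(x) = cond(x) + cond(1/x) + cond(x - 1)`, and `H(x) = exp(h(x))`. By Dirichlet's theorem every complex number `z` (every real number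
`z`, if `φ` is real) has infinitely many approximations `x ∈ K` with `|φ(x) - z| ≤ C H(x)^(-d)` (`C H(x)^(-2d)`, if `φ` is real), and for
almost all numbers these exponents are optimal.

We show: for almost all `z` all but finitely many of the `x ∈ K` with `|φ(x) - z| ≤ H(x)^(-d)` (`H(x)^(-2d)` in the real case) satisfy
`h(x) < κ c(x) - c`, for all `κ > 1/3` and all real `c` at once (for `κ < 1/3` no `x` of large height does: `c(x) ≤ 3 h(x) + log 2`).
The Hausdorff dimension of the set of the `z` with infinitely many approximations of exponent `τ` which violate the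
inequality is at most `2 d / (3 κ τ)`, and at most `d min(4 / (7 κ), 20 / 37) / τ` for `κ > 1`.

Proof: the number of violations of bounded height (starting files `ViolationsOfWeakAbc`, `FewExceptions`) and a covering.
-/

set_option autoImplicit false

open NumberField IsDedekindDomain MeasureTheory Filter Set

namespace Pool.Agent.Results.MP_f5a5f7_nt.GoodApproximations

variable {K : Type} [Field K] [NumberField K]

/-- the absolute logarithmic Weil height `h(x)`, as in the problem -/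
noncomputable def height (x : K) : ℝ :=
  (1 / (Module.finrank ℚ K : ℝ)) *
    ((∑ w : InfinitePlace K, (w.mult : ℝ) * Real.log (max 1 (w x))) +
      ∑ᶠ v : HeightOneSpectrum (𝓞 K), Real.log (max 1 (FinitePlace.mk v x)))

/-- the conductor `cond(x)`, as in the problem -/
noncomputable def cond (x : K) : ℝ :=
  (1 / (Module.finrank ℚ K : ℝ)) *
    (∑ᶠ v : HeightOneSpectrum (𝓞 K),
      (if FinitePlace.mk v x < 1 then Real.log (Ideal.absNorm v.asIdeal : ℝ) else 0))

/-- `H(x) = exp(h(x))` -/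
noncomputable def H (x : K) : ℝ := Real.exp (height x)

/-- `x ≠ 0, 1` violates the inequality `h(x) < κ (cond(x) + cond(1/x) + cond(x - 1)) - c` -/
def Violates (κ c : ℝ) (x : K) : Prop :=
  x ≠ 0 ∧ x ≠ 1 ∧ κ * (cond x + cond x⁻¹ + cond (x - 1)) - c ≤ height x

theorem height_eq (x : K) : height x = Height.logHeight₁ x / Module.finrank ℚ K := by
  rw [NumberField.logHeight₁_eq, height, one_div, div_eq_inv_mul]
  congr 2
  · refine Finset.sum_congr rfl fun v _ => ?_
    rw [Real.posLog_eq_log_max_one (apply_nonneg v x)]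
  · rw [← finsum_comp_equiv (FinitePlace.equivHeightOneSpectrum (K := K)).symm]
    refine finsum_congr fun v => ?_
    rw [Real.posLog_eq_log_max_one (apply_nonneg _ x)]
    rfl

theorem height_finite (B : ℝ) : {x : K | height x ≤ B}.Finite := by
  have hd0 : (0 : ℝ) < (Module.finrank ℚ K : ℝ) := by exact_mod_cast Module.finrank_pos
  refine (NumberField.finite_setOfPred_logHeight₁_le (K := K) (B * Module.finrank ℚ K)).subset fun x hx => ?_
  have h1 : height x ≤ B := hx
  rw [height_eq, div_le_iff₀ hd0] at h1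
  exact h1

theorem cond_nonneg (x : K) : 0 ≤ cond x := by
  refine mul_nonneg (by positivity) (finsum_nonneg fun v => ?_)
  split_ifs
  · refine Real.log_nonneg ?_
    have h1 : 1 ≤ Ideal.absNorm v.asIdeal := by
      rw [Nat.one_le_iff_ne_zero, Ne, Ideal.absNorm_eq_zero_iff]
      exact v.ne_bot
    exact_mod_cast h1
  · exact le_rfl

theorem count1 (κ c : ℝ) (hκ : 0 < κ) (σ' : ℝ) (hσ : 2 * (Module.finrank ℚ K : ℝ) / (3 * κ) < σ') :
    ∃ C T₀ : ℝ, ∀ T : ℝ, T₀ ≤ T → {x : K | Violates κ c x ∧ H x ≤ T}.Finite ∧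
      ({x : K | Violates κ c x ∧ H x ≤ T}.ncard : ℝ) ≤ C * T ^ σ' := by
  have hd0 : (0 : ℝ) < (Module.finrank ℚ K : ℝ) := by exact_mod_cast Module.finrank_pos
  set D : ℝ := (Module.finrank ℚ K : ℝ) with hD
  have hσ0 : 0 < σ' := lt_trans (by positivity) hσ
  -- a smaller `κ`
  set κ' : ℝ := (κ + 2 * D / (3 * σ')) / 2 with hκ'
  have h1 : 2 * D / (3 * σ') < κ := by
    rw [div_lt_iff₀ (by positivity)] at hσ ⊢
    linarith
  have hκ'0 : 0 < κ' := by positivity
  have hκκ : κ' < κ := by rw [hκ']; linarith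
  have h2 : 2 / 3 * D / κ' < σ' := by
    have h3 : 2 * D / (3 * σ') < κ' := by rw [hκ']; linarith
    rw [div_lt_iff₀ (by positivity)] at h3
    rw [div_lt_iff₀ hκ'0]
    linarith
  set s : ℝ := 2 / 3 * D / κ' with hs
  set ε : ℝ := (σ' - s) * κ' / (2 * D) with hε
  have hε0 : 0 < ε := by
    have : 0 < σ' - s := by linarith
    positivity
  obtain ⟨C, hC⟩ := ViolationsOfWeakAbc.result K ε hε0
  set H₀ : ℝ := κ' * ((κ' + c) / (κ - κ') + 1) with hH₀
  have hfin := height_finite (K := K) H₀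
  set δ : ℝ := (σ' - s) / 2 with hδ
  have hδ0 : 0 < δ := by rw [hδ]; linarith
  refine ⟨({x : K | height x ≤ H₀}.ncard : ℝ) + |C| / δ, Real.exp 1, fun T hT => ?_⟩
  have hT1 : 1 ≤ T := le_trans (by have := Real.add_one_le_exp (1 : ℝ); linarith) hT
  have hT0 : 0 < T := by linarith
  have hlog : 1 ≤ Real.log T := (Real.le_log_iff_exp_le hT0).2 hT
  obtain ⟨hf, hle⟩ := hC κ' (Real.log T) hκ'0 hlog
  have hsub : {x : K | Violates κ c x ∧ H x ≤ T} ⊆ {x : K | height x ≤ H₀} ∪
      ViolationsOfWeakAbc.Violations K κ' (Real.log T) := by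
    rintro x ⟨⟨hx0, hx1, hx⟩, hxT⟩
    rcases le_or_gt (height x) H₀ with h3 | h3
    · exact Or.inl h3
    · refine Or.inr ⟨hx0, hx1, ?_, ?_⟩
      · exact (Real.le_log_iff_exp_le hT0).2 hxT
      · intro h4
        have h5 : height x ≤ κ' * (cond x + cond x⁻¹ + cond (x - 1) + 1) := h4
        set w : ℝ := cond x + cond x⁻¹ + cond (x - 1) with hw
        have h6 : 0 < κ - κ' := by linarith
        have h7 : (κ - κ') * w ≤ κ' + c := by nlinarith
        have h8 : w ≤ (κ' + c) / (κ - κ') := by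
          rw [le_div_iff₀ h6]
          linarith
        have h9 : κ' * (w + 1) ≤ H₀ := by
          rw [hH₀]
          exact mul_le_mul_of_nonneg_left (by linarith) hκ'0.le
        linarith
  refine ⟨(hfin.union hf).subset hsub, ?_⟩
  have h3 : ({x : K | Violates κ c x ∧ H x ≤ T}.ncard : ℝ) ≤
      ({x : K | height x ≤ H₀}.ncard : ℝ) + ((ViolationsOfWeakAbc.Violations K κ' (Real.log T)).ncard : ℝ) := by
    exact_mod_cast (Set.ncard_le_ncard hsub (hfin.union hf)).trans (Set.ncard_union_le _ _)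
  have h4 : Real.exp ((2 / 3 + ε) * D * (Real.log T / κ')) = T ^ (s + δ) := by
    rw [Real.rpow_def_of_pos hT0]
    congr 1
    have e1 : ε * D / κ' = δ := by
      rw [hδ, hε]
      field_simp
    calc (2 / 3 + ε) * D * (Real.log T / κ') = Real.log T * (2 / 3 * D / κ' + ε * D / κ') := by ring
      _ = Real.log T * (s + δ) := by rw [e1, hs]
  have h5 : Real.log T ≤ T ^ δ / δ := Real.log_le_rpow_div hT0.le hδ0
  have h6 : ((ViolationsOfWeakAbc.Violations K κ' (Real.log T)).ncard : ℝ) ≤ |C| / δ * T ^ σ' := by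
    refine hle.trans ?_
    rw [h4]
    calc C * Real.log T * T ^ (s + δ) ≤ |C| * (T ^ δ / δ) * T ^ (s + δ) := by
          refine mul_le_mul_of_nonneg_right ?_ (by positivity)
          exact mul_le_mul (le_abs_self C) h5 (by linarith) (abs_nonneg C)
      _ = |C| / δ * T ^ (δ + (s + δ)) := by
          rw [Real.rpow_add hT0 δ (s + δ)]
          ring
      _ = |C| / δ * T ^ σ' := by
          congr 2
          rw [hδ]
          ring
  have h7 : (1 : ℝ) ≤ T ^ σ' := Real.one_le_rpow hT1 hσ0.le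
  have h8 : (0 : ℝ) ≤ ({x : K | height x ≤ H₀}.ncard : ℝ) := Nat.cast_nonneg _
  nlinarith

theorem count2 (κ c : ℝ) (hκ : 1 < κ) (σ' : ℝ)
    (hσ : (Module.finrank ℚ K : ℝ) * min (4 / (7 * κ)) (20 / 37) < σ') :
    ∃ C T₀ : ℝ, ∀ T : ℝ, T₀ ≤ T → {x : K | Violates κ c x ∧ H x ≤ T}.Finite ∧
      ({x : K | Violates κ c x ∧ H x ≤ T}.ncard : ℝ) ≤ C * T ^ σ' := by
  obtain ⟨C, hC⟩ := FewExceptions.result K κ c (σ' - (Module.finrank ℚ K : ℝ) * min (4 / (7 * κ)) (20 / 37)) hκ
    (by linarith)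
  refine ⟨C, 1, fun T hT => ?_⟩
  have h1 := hC T hT
  have h2 : {x : K | Violates κ c x ∧ H x ≤ T} = FewExceptions.exceptional K κ c T := by
    ext x
    constructor
    · rintro ⟨⟨h0, h1, h2⟩, h3⟩
      refine ⟨h0, h1, h3, ?_⟩
      have h4 : κ * (cond x + cond x⁻¹ + cond (x - 1)) ≤ height x + c := by linarith
      exact h4
    · rintro ⟨h0, h1, h2, h3⟩
      refine ⟨⟨h0, h1, ?_⟩, h2⟩
      have h4 : κ * (cond x + cond x⁻¹ + cond (x - 1)) ≤ height x + c := h3
      linarith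
  rw [h2]
  rw [add_sub_cancel] at h1
  exact h1

/-- the complex numbers with infinitely many approximations of exponent `τ` which violate the inequality -/
def Bad (φ : K →+* ℂ) (κ c τ : ℝ) : Set ℂ :=
  {z : ℂ | {x : K | Violates κ c x ∧ ‖φ x - z‖ ≤ H x ^ (-τ)}.Infinite}

theorem bad_dim (φ : K →+* ℂ) (κ c τ : ℝ) (hκ : 0 < κ) (hτ : 0 < τ) :
    dimH (Bad φ κ c τ) ≤ ENNReal.ofReal (2 * (Module.finrank ℚ K : ℝ) / (3 * κ * τ)) := by
  have h1 := Pool.Agent.Q229.RAG.good (X := ℂ) φ {x : K | Violates κ c x} H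
    (σ := 2 * (Module.finrank ℚ K : ℝ) / (3 * κ)) (by positivity) (fun σ' hσ => count1 κ c hκ σ' hσ) τ hτ
  rw [div_div] at h1
  simp only [dist_eq_norm] at h1
  exact h1

theorem viol_mono {κ κ' c c' : ℝ} (hκ : κ' ≤ κ) (hc : c ≤ c') {x : K} (h : Violates κ c x) : Violates κ' c' x := by
  refine ⟨h.1, h.2.1, le_trans ?_ h.2.2⟩
  have h1 : 0 ≤ cond x + cond x⁻¹ + cond (x - 1) :=
    add_nonneg (add_nonneg (cond_nonneg _) (cond_nonneg _)) (cond_nonneg _)
  nlinarith

/-- For every number field `K` of degree `d` and embedding `φ : K → ℂ`: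

(1) for `κ > 0`, `c` and `τ > 0` the complex numbers `z` with infinitely many `x ∈ K`, `x ≠ 0, 1`, such that
`|φ(x) - z| ≤ H(x)^(-τ)` and `h(x) ≥ κ (cond(x) + cond(1/x) + cond(x - 1)) - c` form a set of Hausdorff dimension at most
`2 d / (3 κ τ)`, and if `κ > 1` at most `d min(4 / (7 κ), 20 / 37) / τ`;

(2) for almost all complex numbers `z` and all `κ > 1/3` and `c`, all but finitely many of the `x ∈ K`, `x ≠ 0, 1`, with
`|φ(x) - z| ≤ H(x)^(-d)` satisfy `h(x) < κ (cond(x) + cond(1/x) + cond(x - 1)) - c`;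

(3) for almost all real numbers `t` and all `κ > 1/3` and `c`, all but finitely many of the `x ∈ K`, `x ≠ 0, 1`, with
`|φ(x) - t| ≤ H(x)^(-2 d)` satisfy `h(x) < κ (cond(x) + cond(1/x) + cond(x - 1)) - c`. -/
theorem result (K : Type) [Field K] [NumberField K] (φ : K →+* ℂ) :
    (∀ κ c τ : ℝ, 0 < κ → 0 < τ →
      dimH {z : ℂ | {x : K | Violates κ c x ∧ ‖φ x - z‖ ≤ H x ^ (-τ)}.Infinite} ≤
        ENNReal.ofReal (2 * (Module.finrank ℚ K : ℝ) / (3 * κ * τ)) ∧
      (1 < κ → dimH {z : ℂ | {x : K | Violates κ c x ∧ ‖φ x - z‖ ≤ H x ^ (-τ)}.Infinite} ≤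
        ENNReal.ofReal ((Module.finrank ℚ K : ℝ) * min (4 / (7 * κ)) (20 / 37) / τ))) ∧
    (∀ᵐ z : ℂ, ∀ κ c : ℝ, 1 / 3 < κ →
      {x : K | Violates κ c x ∧ ‖φ x - z‖ ≤ H x ^ (-(Module.finrank ℚ K : ℝ))}.Finite) ∧
    (∀ᵐ t : ℝ, ∀ κ c : ℝ, 1 / 3 < κ →
      {x : K | Violates κ c x ∧ ‖φ x - t‖ ≤ H x ^ (-(2 * (Module.finrank ℚ K : ℝ)))}.Finite) := by
  have hd0 : (0 : ℝ) < (Module.finrank ℚ K : ℝ) := by exact_mod_cast Module.finrank_pos
  have hmono : ∀ (κ c : ℝ), 1 / 3 < κ → ∃ n : ℕ, ∀ x : K, Violates κ c x →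
      Violates (1 / 3 + 1 / ((n : ℝ) + 1)) n x := by
    intro κ c hκ
    obtain ⟨n1, hn1⟩ := exists_nat_one_div_lt (show (0 : ℝ) < κ - 1 / 3 by linarith)
    obtain ⟨n2, hn2⟩ := exists_nat_ge c
    refine ⟨max n1 n2, fun x hx => viol_mono ?_ ?_ hx⟩
    · have h1 : 1 / (((max n1 n2 : ℕ) : ℝ) + 1) ≤ 1 / ((n1 : ℝ) + 1) := by
        refine one_div_le_one_div_of_le (by positivity) ?_
        have : (n1 : ℝ) ≤ ((max n1 n2 : ℕ) : ℝ) := by exact_mod_cast le_max_left _ _
        linarith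
      linarith
    · exact hn2.trans (by exact_mod_cast le_max_right _ _)
  refine ⟨fun κ c τ hκ hτ => ⟨bad_dim φ κ c τ hκ hτ, fun hκ1 => ?_⟩, ?_, ?_⟩
  · have h1 := Pool.Agent.Q229.RAG.good (X := ℂ) φ {x : K | Violates κ c x} H
      (σ := (Module.finrank ℚ K : ℝ) * min (4 / (7 * κ)) (20 / 37))
      (mul_nonneg hd0.le (le_min (by positivity) (by norm_num))) (fun σ' hσ => count2 κ c hκ1 σ' hσ) τ hτ
    simp only [dist_eq_norm] at h1
    exact h1
  · have h1 : ∀ n : ℕ, ∀ᵐ z : ℂ, z ∉ Bad φ (1 / 3 + 1 / ((n : ℝ) + 1)) n (Module.finrank ℚ K : ℝ) := by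
      intro n
      rw [← measure_eq_zero_iff_ae_notMem]
      refine Pool.Agent.Q229.RAG.null_of_dimH volume (lt_of_le_of_lt (bad_dim φ _ _ _ (by positivity) hd0) ?_)
      rw [Complex.finrank_real_complex, show ((2 : ℕ) : ENNReal) = ENNReal.ofReal 2 by simp,
        ENNReal.ofReal_lt_ofReal_iff (by norm_num), div_lt_iff₀ (by positivity)]
      have h2 : (0 : ℝ) < 1 / ((n : ℝ) + 1) := by positivity
      nlinarith [mul_pos hd0 h2]
    rw [← ae_all_iff] at h1
    filter_upwards [h1] with z hz κ c hκ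
    obtain ⟨n, hn⟩ := hmono κ c hκ
    exact (Set.not_infinite.1 (hz n)).subset fun x hx => ⟨hn x hx.1, hx.2⟩
  · have h1 : ∀ n : ℕ, ∀ᵐ t : ℝ, (t : ℂ) ∉ Bad φ (1 / 3 + 1 / ((n : ℝ) + 1)) n (2 * (Module.finrank ℚ K : ℝ)) := by
      intro n
      have h0 : volume {t : ℝ | (t : ℂ) ∈ Bad φ (1 / 3 + 1 / ((n : ℝ) + 1)) n (2 * (Module.finrank ℚ K : ℝ))} = 0 := by
        refine Pool.Agent.Q229.RAG.null_of_dimH volume ?_
        have h3 : dimH {t : ℝ | (t : ℂ) ∈ Bad φ (1 / 3 + 1 / ((n : ℝ) + 1)) n (2 * (Module.finrank ℚ K : ℝ))} ≤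
            dimH (Bad φ (1 / 3 + 1 / ((n : ℝ) + 1)) n (2 * (Module.finrank ℚ K : ℝ))) := by
          rw [← Complex.isometry_ofReal.dimH_image]
          refine dimH_mono ?_
          rintro _ ⟨t, ht, rfl⟩
          exact ht
        refine lt_of_le_of_lt (h3.trans (bad_dim φ _ _ _ (by positivity) (by positivity))) ?_
        rw [Module.finrank_self, show ((1 : ℕ) : ENNReal) = ENNReal.ofReal 1 by simp,
          ENNReal.ofReal_lt_ofReal_iff (by norm_num), div_lt_iff₀ (by positivity)]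
        have h2 : (0 : ℝ) < 1 / ((n : ℝ) + 1) := by positivity
        nlinarith [mul_pos hd0 h2]
      exact measure_eq_zero_iff_ae_notMem.1 h0
    rw [← ae_all_iff] at h1
    filter_upwards [h1] with t ht κ c hκ
    obtain ⟨n, hn⟩ := hmono κ c hκ
    exact (Set.not_infinite.1 (ht n)).subset fun x hx => ⟨hn x hx.1, hx.2⟩

end Pool.Agent.Results.MP_f5a5f7_nt.GoodApproximations
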